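import Pool.Agent.Lib.MP_9ddde4_lc.Top

set_option autoImplicit false
open Filter Topology

namespace Pool.Agent.Variants.MP_9ddde4_lc.NoOrderReflecting

/-- Baire class 1 functions (pointwise limits of continuous real functions) with values in the
unit interval. -/
def Baire01 {T : Type} [TopologicalSpace T] (f : T → ℝ) : Prop :=
  (∃ u : ℕ → T → ℝ, (∀ n, Continuous (u n)) ∧
    ∀ x, Tendsto (fun n => u n x) atTop (𝓝 (f x))) ∧ ∀ x, f x ∈ Set.Icc (0 : ℝ) 1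

/-- No monotone map from the Baire class 1 functions to the ambiguous sets reflects the order. -/
theorem result {T Y : Type} [TopologicalSpace T] [PolishSpace T] [Uncountable T]
    [TopologicalSpace Y] [PolishSpace Y] (Φ : (T → ℝ) → Set Y)
    (hamb : ∀ f : T → ℝ, Baire01 f → IsGδ (Φ f) ∧ IsGδ (Φ f)ᶜ)
    (hmono : ∀ f g : T → ℝ, Baire01 f → Baire01 g → f < g → Φ g ⊆ Φ f) :
    ∃ f g : T → ℝ, Baire01 f ∧ Baire01 g ∧ ¬ f ≤ g ∧ Φ g ⊆ Φ f ∧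
      ((∀ f' g' : T → ℝ, Baire01 f' → Baire01 g' → f' < g' → Φ g' ≠ Φ f') → Φ g ≠ Φ f) := by
  obtain ⟨f, f', g, h1, h2, h3, h4, h5, h6, h7, h8, h9⟩ := Pool.Agent.Lib.MP_9ddde4_lc.top Φ
    (fun f a b => hamb f ⟨a, b⟩) (fun f g a b c d => hmono f g ⟨a, b⟩ ⟨c, d⟩)
  have hs := hmono f f' ⟨h1, h2⟩ ⟨h3, h4⟩ h7
  refine ⟨f, g, ⟨h1, h2⟩, ⟨h5, h6⟩, h8, h9.trans hs, fun hst he => ?_⟩
  exact hst f f' ⟨h1, h2⟩ ⟨h3, h4⟩ h7 (hs.antisymm (he ▸ h9))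

end Pool.Agent.Variants.MP_9ddde4_lc.NoOrderReflecting
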