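import Mathlib

set_option autoImplicit false
open Set Topology

namespace Pool.Agent.Variants.MP_9ddde4_lc.NotLexUniversal

/-- Lexicographic strict order on `I`-sequences of real functions: at the first index where the
sequences differ the functions are compared pointwise, upward if `up i` and downward otherwise. -/
def LexLt {I Y : Type} [LinearOrder I] (up : I → Prop) (s t : I → Y → ℝ) : Prop :=
  ∃ i, (∀ j, j < i → s j = t j) ∧ ((up i ∧ s i < t i) ∨ (¬ up i ∧ t i < s i))

lemma jump {Y : Type} [TopologicalSpace Y] {f g : Y → ℝ} (hf : UpperSemicontinuous f)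
    [SecondCountableTopology Y] (h : f < g) :
    ∃ p : ℚ × TopologicalSpace.countableBasis Y,
      (∀ y ∈ (p.2 : Set Y), f y < p.1) ∧ ¬ (∀ y ∈ (p.2 : Set Y), g y < p.1) := by
  obtain ⟨-, y, hy⟩ := Pi.lt_def.1 h
  obtain ⟨q, h1, h2⟩ := exists_rat_btwn hy
  have h3 : {z | f z < q} ∈ 𝓝 y := hf y q h1
  obtain ⟨U, hU, hyU, hsub⟩ :=
    (TopologicalSpace.isBasis_countableBasis Y).mem_nhds_iff.1 h3
  refine ⟨(q, ⟨U, hU⟩), fun z hz => hsub hz, fun hall => ?_⟩
  have := hall y hyU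
  simp only at this
  linarith

lemma no_chain {Y : Type} [TopologicalSpace Y] [SecondCountableTopology Y]
    (a b : ℝ → Y → ℝ) (ha : ∀ x, UpperSemicontinuous (a x)) (hab : ∀ x, a x < b x)
    (hne : ∀ x y, x ≠ y → b x ≤ a y ∨ b y ≤ a x) : False := by
  choose p hp1 hp2 using fun x => jump (ha x) (hab x)
  have : Countable (TopologicalSpace.countableBasis Y) :=
    (TopologicalSpace.countable_countableBasis Y).to_subtype
  have hinj : Function.Injective p := by
    intro x y hxy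
    by_contra hn
    rcases hne x y hn with h | h
    · exact hp2 x fun z hz => lt_of_le_of_lt (h z) (by rw [hxy] at hz ⊢; exact hp1 y z hz)
    · exact hp2 y fun z hz => lt_of_le_of_lt (h z) (by rw [← hxy] at hz ⊢; exact hp1 x z hz)
  have := hinj.countable
  exact not_countable (α := ℝ) this

/-- Proper nonempty sets, closed or with closed complement (used in the proof only). -/
def Mid (A : Set ℝ) : Prop := (IsOpen A ∨ IsClosed A) ∧ A.Nonempty ∧ Aᶜ.Nonempty

lemma mid_single (x : ℝ) : Mid {x} :=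
  ⟨Or.inr isClosed_singleton, ⟨x, rfl⟩, ⟨x + 1, by simp⟩⟩

lemma mid_cosingle (x : ℝ) : Mid {x}ᶜ :=
  ⟨Or.inl isClosed_singleton.isOpen_compl, ⟨x + 1, by simp⟩, ⟨x, by simp⟩⟩

lemma prime {β : Type} (g : Set ℝ → β)
    (hmod : ∀ A B C, Mid A → Mid B → Mid C → g A = g B → g C ≠ g A →
      (C ⊂ A → C ⊂ B) ∧ (A ⊂ C → B ⊂ C))
    {A B : Set ℝ} (hA : Mid A) (hB : Mid B) (hAB : A ⊂ B) (hg : g A = g B) :
    ∀ C, Mid C → g C = g A := by
  obtain ⟨x, hxB, hxA⟩ := exists_of_ssubset hAB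
  have h1 : g {x} = g A := by
    by_contra hn
    have hs : ({x} : Set ℝ) ⊂ B := by
      refine ⟨by simpa using hxB, fun h => ?_⟩
      obtain ⟨a, ha⟩ := hA.2.1
      have : a = x := h (hAB.1 ha)
      exact hxA (this ▸ ha)
    have := (hmod B A {x} hB hA (mid_single x) hg.symm (hg ▸ hn)).1 hs
    exact hxA (this.1 rfl)
  have h2 : g {x}ᶜ = g A := by
    by_contra hn
    have hs : A ⊂ ({x}ᶜ : Set ℝ) := by
      refine ⟨fun a ha h => hxA (by have : a = x := h; exact this ▸ ha), fun h => ?_⟩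
      obtain ⟨b, hb⟩ := hB.2.2
      have hbx : b ≠ x := fun e => hb (e ▸ hxB)
      exact hb (hAB.1 (h hbx))
    have := (hmod A B {x}ᶜ hA hB (mid_cosingle x) hg hn).2 hs
    exact this.1 hxB rfl
  have h3 : ∀ y : ℝ, g {y} = g A := by
    intro y
    by_cases hy : y = x
    · rw [hy, h1]
    by_contra hn
    have hs : ({y} : Set ℝ) ⊂ ({x}ᶜ : Set ℝ) := by
      refine ⟨by simpa using fun e : x = y => hy e.symm, fun h => ?_⟩
      have e1 : max x y + 1 ≠ x := by
        have := le_max_left x y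
        intro e
        linarith
      have e2 : max x y + 1 = y := h e1
      have := le_max_right x y
      linarith
    have := (hmod {x}ᶜ {x} {y} (mid_cosingle x) (mid_single x) (mid_single y)
      (h2.trans h1.symm) (h2 ▸ hn)).1 hs
    exact hy (this.1 rfl)
  intro C hC
  by_contra hn
  obtain ⟨y, hy⟩ := hC.2.1
  obtain ⟨z, hz⟩ := hC.2.2
  have hs : ({y} : Set ℝ) ⊂ C := by
    refine ⟨by simpa using hy, fun h => hn ?_⟩
    have : C = {y} := Subset.antisymm h (by simpa using hy)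
    rw [this, h3]
  have := (hmod {y} {z} C (mid_single y) (mid_single z) hC ((h3 y).trans (h3 z).symm)
    (by rw [h3 y]; exact hn)).2 hs
  exact hz (this.1 rfl)

theorem result {I Y : Type} [LinearOrder I] [WellFoundedLT I]
    [TopologicalSpace Y] [SecondCountableTopology Y] (up : I → Prop) :
    ¬ ∃ Φ : Set ℝ → I → Y → ℝ,
      (∀ A, IsOpen A ∨ IsClosed A → ∀ i, UpperSemicontinuous (Φ A i)) ∧
      ∀ A B, IsOpen A ∨ IsClosed A → IsOpen B ∨ IsClosed B →
        (A ⊂ B ↔ LexLt up (Φ A) (Φ B)) := by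
  rintro ⟨Φ, hU, hΦ⟩
  have hne : {i : I | ∃ A B, Mid A ∧ Mid B ∧ Φ A i ≠ Φ B i}.Nonempty := by
    have hs : ({0} : Set ℝ) ⊂ ({1}ᶜ : Set ℝ) := by
      refine ⟨by simp, fun h => ?_⟩
      have : (2 : ℝ) = 0 := h (by norm_num : (2 : ℝ) ≠ 1)
      norm_num at this
    obtain ⟨i, -, h⟩ := (hΦ _ _ (mid_single 0).1 (mid_cosingle 1).1).1 hs
    refine ⟨i, _, _, mid_single 0, mid_cosingle 1, ?_⟩
    rcases h with h | h
    · exact h.2.ne
    · exact h.2.ne'
  obtain ⟨d, ⟨A0, B0, hA0, hB0, hd⟩, hmin⟩ := WellFounded.has_min wellFounded_lt _ hne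
  have hlow : ∀ A B, Mid A → Mid B → ∀ j, j < d → Φ A j = Φ B j := by
    intro A B hA hB j hj
    by_contra hn
    exact hmin j ⟨A, B, hA, hB, hn⟩ hj
  have key : ∀ A B, Mid A → Mid B → Φ A d ≠ Φ B d →
      (A ⊂ B ↔ ((up d ∧ Φ A d < Φ B d) ∨ (¬ up d ∧ Φ B d < Φ A d))) := by
    intro A B hA hB hn
    rw [hΦ A B hA.1 hB.1]
    constructor
    · rintro ⟨i, hi, h⟩
      rcases lt_trichotomy i d with hlt | rfl | hlt
      · exfalso
        have := hlow A B hA hB i hlt
        rcases h with h | h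
        · exact h.2.ne this
        · exact h.2.ne' this
      · exact h
      · exact absurd (hi d hlt) hn
    · exact fun h => ⟨d, hlow A B hA hB, h⟩
  have strict : ∀ A B, Mid A → Mid B → A ⊂ B →
      ((up d ∧ Φ A d < Φ B d) ∨ (¬ up d ∧ Φ B d < Φ A d)) := by
    intro A B hA hB hAB
    refine (key A B hA hB fun hg => ?_).1 hAB
    have := prime (fun A => Φ A d) (fun A B C hA hB hC h1 h2 => ?_) hA hB hAB hg
    · exact hd ((this A0 hA0).trans (this B0 hB0).symm)
    · have h1' : Φ A d = Φ B d := h1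
      have h2' : Φ C d ≠ Φ A d := h2
      refine ⟨fun h => ?_, fun h => ?_⟩
      · have := (key C A hC hA h2').1 h
        rw [h1'] at this h2'
        exact (key C B hC hB h2').2 this
      · have := (key A C hA hC h2'.symm).1 h
        rw [h1'] at this h2'
        exact (key B C hB hC h2'.symm).2 this
  have mo : ∀ x : ℝ, Mid (Iio x) := fun x =>
    ⟨Or.inl isOpen_Iio, ⟨x - 1, by simp⟩, ⟨x, by simp⟩⟩
  have mc : ∀ x : ℝ, Mid (Iic x) := fun x =>
    ⟨Or.inr isClosed_Iic, ⟨x, by simp⟩, ⟨x + 1, by simp⟩⟩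
  have s1 : ∀ x : ℝ, Iio x ⊂ Iic x := fun x =>
    ⟨Iio_subset_Iic_self, fun h => lt_irrefl x (h (le_refl x))⟩
  have s2 : ∀ x y : ℝ, x < y → Iic x ⊂ Iio y := fun x y h =>
    ⟨fun z hz => lt_of_le_of_lt hz h, fun h' => by
      have : (x + y) / 2 ≤ x := h' (show (x + y) / 2 < y by linarith)
      linarith⟩
  by_cases hu : up d
  · have st : ∀ A B, Mid A → Mid B → A ⊂ B → Φ A d < Φ B d := fun A B hA hB h =>
      (strict A B hA hB h).elim (fun h => h.2) (fun h => absurd hu h.1)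
    refine no_chain (fun x => Φ (Iio x) d) (fun x => Φ (Iic x) d)
      (fun x => hU _ (mo x).1 d) (fun x => st _ _ (mo x) (mc x) (s1 x)) fun x y hxy => ?_
    rcases lt_or_gt_of_ne hxy with h | h
    · exact Or.inl (st _ _ (mc x) (mo y) (s2 x y h)).le
    · exact Or.inr (st _ _ (mc y) (mo x) (s2 y x h)).le
  · have st : ∀ A B, Mid A → Mid B → A ⊂ B → Φ B d < Φ A d := fun A B hA hB h =>
      (strict A B hA hB h).elim (fun h => absurd h.1 hu) (fun h => h.2)
    refine no_chain (fun x => Φ (Iic x) d) (fun x => Φ (Iio x) d)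
      (fun x => hU _ (mc x).1 d) (fun x => st _ _ (mo x) (mc x) (s1 x)) fun x y hxy => ?_
    rcases lt_or_gt_of_ne hxy with h | h
    · exact Or.inr (st _ _ (mc x) (mo y) (s2 x y h)).le
    · exact Or.inl (st _ _ (mc y) (mo x) (s2 y x h)).le

end Pool.Agent.Variants.MP_9ddde4_lc.NotLexUniversal
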